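import Mathlib

set_option autoImplicit false

namespace Pool.Agent.Results.MP_d0186b_co.No

open Nat Filter Real

/-- parity of the number of Zeckendorf summands -/
def s (n : ℕ) : ZMod 2 := (zeckendorf n).length

open Classical in
/-- `N`-th maximum order complexity of a binary sequence -/
noncomputable def M (u : ℕ → ZMod 2) (N : ℕ) : ℕ :=
  if ∀ i < N - 1, u i = u 0 then (if u (N - 1) = u 0 then 0 else N - 1) else
    sInf {k | 0 < k ∧ ∃ f : (Fin k → ZMod 2) → ZMod 2,
      ∀ i, i + k < N → u (i + k) = f fun j => u (i + j)}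

lemma s_fib {k r : ℕ} (h : r < fib (k + 1)) : s (fib (k + 2) + r) = s r + 1 := by
  have : greatestFib (fib (k + 2) + r) = k + 2 := by
    apply le_antisymm
    · rw [← Nat.lt_succ_iff, greatestFib_lt,
        show fib (k + 2).succ = fib (k + 1) + fib (k + 2) from fib_add_two]; omega
    · rw [le_greatestFib]; omega
  rw [s, zeckendorf_of_pos (by have := fib_pos.2 (show 0 < k + 2 by omega); omega), this]
  simp [s]

lemma g_abs : |goldenConj| ^ 2 + |goldenConj| = 1 ∧ 0 ≤ |goldenConj| ∧ |goldenConj| ≤ 5 / 8 := by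
  have := goldenConj_sq
  have h := goldenConj_neg
  rw [abs_of_neg h]
  refine ⟨by linarith, by linarith, by nlinarith⟩

lemma shift (m : ℕ) : ∃ a : ℕ → ℕ, a 0 = m ∧ (∀ t, a (t + 2) = a t + a (t + 1)) ∧
    (∀ t, ∀ r < fib (t + 1), s (a t + r) = s m + s r) ∧ ∀ i, m < fib (i + 1) →
      (∀ t, a t + fib (t + 1) ≤ fib (i + 1 + t)) ∧
        |a 1 - goldenRatio * m| ≤ |goldenConj| - |goldenConj| ^ (i + 1) := by
  obtain ⟨g1, g2, g3⟩ := g_abs
  induction m using Nat.strong_induction_on with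
  | _ m ih =>
    rcases m.eq_zero_or_pos with rfl | h
    · refine ⟨fun _ => 0, rfl, by simp, by simp [s], fun i _ =>
        ⟨fun t => by simpa using fib_mono (by omega), ?_⟩⟩
      have := pow_le_one₀ (n := i) g2 (by linarith)
      simp only [Nat.cast_zero, mul_zero, sub_zero, abs_zero, pow_succ]; nlinarith
    obtain ⟨k, hk⟩ : ∃ k, greatestFib m = k + 2 := ⟨greatestFib m - 2, by
      have := (le_greatestFib (m := 2)).2 h; omega⟩
    have h1 := fib_greatestFib_le m
    have h2 := lt_fib_greatestFib_add_one m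
    rw [hk] at h1 h2
    have e : fib (k + 3) = fib (k + 1) + fib (k + 2) := fib_add_two
    replace h2 : m < fib (k + 3) := h2
    have p := fib_pos.2 (show 0 < k + 2 by omega)
    obtain ⟨r, rfl⟩ : ∃ r, m = fib (k + 2) + r := ⟨m - fib (k + 2), by omega⟩
    obtain ⟨b, b1, b2, b3, b4⟩ := ih r (by omega)
    obtain ⟨b5, b6⟩ := b4 k (by omega)
    refine ⟨fun t => fib (k + t + 2) + b t, by simp [b1], fun t => ?_, fun t x hx => ?_,
      fun i hi => ?_⟩
    · have : fib (k + t + 4) = fib (k + t + 2) + fib (k + t + 3) := fib_add_two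
      show fib (k + t + 4) + b (t + 2) = fib (k + t + 2) + b t + (fib (k + t + 3) + b (t + 1))
      rw [b2]; omega
    · have := b5 t
      rw [add_right_comm] at this
      rw [add_assoc, s_fib (by omega), s_fib (by omega), b3 t x hx]; ring
    · have ki : k + 2 ≤ i := by
        by_contra c
        have := fib_mono (show i + 1 ≤ k + 2 by omega)
        omega
      refine ⟨fun t => ?_, ?_⟩
      · have := b5 t
        rw [add_right_comm] at this
        have : fib (k + t + 3) = fib (k + t + 1) + fib (k + t + 2) := fib_add_two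
        have := fib_mono (show k + t + 3 ≤ i + 1 + t by omega)
        beta_reduce; omega
      · have e1 := fib_succ_sub_goldenRatio_mul_fib (k + 2)
        have e2 := pow_le_pow_of_le_one g2 (by linarith) (show k + 3 ≤ i + 1 by omega)
        have e3 := abs_add_le (goldenConj ^ (k + 2)) (b 1 - goldenRatio * r)
        rw [abs_pow] at e3
        push_cast
        rw [show (fib (k + 1 + 2) : ℝ) + b 1 - goldenRatio * (fib (k + 2) + r) =
          goldenConj ^ (k + 2) + (b 1 - goldenRatio * r) by rw [← e1]; ring]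
        have : |goldenConj| ^ (k + 1) = |goldenConj| ^ (k + 2) + |goldenConj| ^ (k + 3) := by
          linear_combination -|goldenConj| ^ (k + 1) * g1
        linarith

def L (k : ℕ) : ℕ := fib k + fib (k + 2)

lemma luc (u x : ℕ) (hx : x ≤ 2 * fib (u + 1)) : ∀ t, ∀ r < fib (t + 1),
    s (x * L (u + 9 + t) + r) = s (x * L (u + 9)) + s r := by
  obtain ⟨g1, g2, g3⟩ := g_abs
  obtain ⟨a, a1, a2, a3, a4⟩ := shift (x * L (u + 9))
  have a5 := (a4 (x * L (u + 9) + 5) (lt_of_lt_of_le (by omega) (le_fib_self (by omega)))).2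
  have fb : ∀ n, fib (n + 1) * |goldenConj| ^ n ≤ 1 := fun n => by
    induction n using Nat.twoStepInduction with
    | zero => simp
    | one => simp; linarith
    | more n h1 h2 =>
      rw [show fib (n + 2 + 1) = fib (n + 1) + fib (n + 2) from fib_add_two]
      push_cast
      have : (fib (n + 1) + fib (n + 2) : ℝ) * |goldenConj| ^ (n + 2) = |goldenConj| ^ 2 *
        (fib (n + 1) * |goldenConj| ^ n) + |goldenConj| * (fib (n + 2) * |goldenConj| ^ (n + 1)) := by
        ring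
      nlinarith [sq_nonneg |goldenConj|]
  have e : a 1 = x * L (u + 10) := by
    have e1 := fib_succ_sub_goldenRatio_mul_fib (u + 9)
    have e2 := fib_succ_sub_goldenRatio_mul_fib (u + 11)
    have e3 : |(x * L (u + 10) : ℕ) - goldenRatio * (x * L (u + 9) : ℕ)| ≤ 1 / 4 := by
      rw [show ((x * L (u + 10) : ℕ) : ℝ) - goldenRatio * (x * L (u + 9) : ℕ) =
        x * (goldenConj ^ (u + 9) + goldenConj ^ (u + 11)) by
          rw [← e1, ← e2]; simp only [L]; push_cast; ring, abs_mul, Nat.abs_cast]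
      have h1 := abs_add_le (goldenConj ^ (u + 9)) (goldenConj ^ (u + 11))
      rw [abs_pow, abs_pow] at h1
      have h2 := pow_le_pow_of_le_one g2 (by linarith) (show u + 9 ≤ u + 11 by omega)
      have h3 := pow_le_pow_left₀ g2 g3 9
      have h4 : (x : ℝ) ≤ 2 * fib (u + 1) := by exact_mod_cast hx
      have h5 := fb u
      have h6 := pow_nonneg g2 u
      calc _ ≤ 2 * fib (u + 1) * (2 * |goldenConj| ^ (u + 9)) := by gcongr; linarith
        _ = 4 * (fib (u + 1) * |goldenConj| ^ u) * |goldenConj| ^ 9 := by ring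
        _ ≤ 4 * 1 * (5 / 8) ^ 9 := by gcongr
        _ ≤ _ := by norm_num
    have := pow_nonneg g2 (x * L (u + 9) + 5 + 1)
    have h : |(a 1 : ℝ) - (x * L (u + 10) : ℕ)| < 1 := by
      rw [abs_le] at e3 a5; rw [abs_lt]; constructor <;> linarith
    have h : |(a 1 : ℤ) - (x * L (u + 10) : ℕ)| < 1 := by exact_mod_cast h
    rw [abs_lt] at h; omega
  have : ∀ t, a t = x * L (u + 9 + t) := fun t => by
    induction t using Nat.twoStepInduction with
    | zero => exact a1
    | one => exact e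
    | more n h1 h2 =>
      rw [a2, h1, h2, ← mul_add]
      congr 1
      have : fib (u + 9 + n + 2) = fib (u + 9 + n) + fib (u + 9 + n + 1) := fib_add_two
      have : fib (u + 9 + n + 4) = fib (u + 9 + n + 2) + fib (u + 9 + n + 3) := fib_add_two
      show fib (u + 9 + n) + fib (u + 9 + n + 2) + (fib (u + 9 + n + 1) + fib (u + 9 + n + 3)) =
        fib (u + 9 + n + 2) + fib (u + 9 + n + 4)
      omega
  intro t r hr
  rw [← this, a3 t r hr]

lemma cas (m : ℕ) : fib (2 * m + 1) * fib (2 * m + 3) = fib (2 * m + 2) ^ 2 + 1 := by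
  induction m with
  | zero => decide
  | succ m ih =>
    have e1 : fib (2 * m + 3) = fib (2 * m + 1) + fib (2 * m + 2) := fib_add_two
    have e2 : fib (2 * m + 4) = fib (2 * m + 2) + fib (2 * m + 3) := fib_add_two
    have e3 : fib (2 * m + 5) = fib (2 * m + 3) + fib (2 * m + 4) := fib_add_two
    show fib (2 * m + 3) * fib (2 * m + 5) = fib (2 * m + 4) ^ 2 + 1
    rw [e1] at ih
    rw [e3, e2, e1]; nlinarith

lemma sq_eq (v w n : ℕ) (hn : n < fib (2 * v + 3)) :
    s ((L (6 * v + 15 + 2 * w) + n) ^ 2) = s (2 * n * L (2 * v + 11)) + s (n ^ 2 + 2) := by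
  have b0 : 2 ≤ fib (2 * v + 3) := fib_mono (show 3 ≤ 2 * v + 3 by omega)
  have b1 : n ^ 2 + 2 < fib (4 * v + 4 + 2 * w + 1) := by
    have := fib_two_mul_add_one (2 * v + 2)
    have := fib_mono (show 2 * (2 * v + 2) + 1 ≤ 4 * v + 4 + 2 * w + 1 by omega)
    have : (n + 1) ^ 2 ≤ fib (2 * v + 2 + 1) ^ 2 := Nat.pow_le_pow_left hn 2
    have : 2 ^ 2 ≤ fib (2 * v + 2 + 1) ^ 2 := Nat.pow_le_pow_left b0 2
    rcases n.eq_zero_or_pos with rfl | h <;> nlinarith [fib_pos.2 (show 0 < 2 * v + 2 by omega)]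
  have h := luc (2 * v + 2) (2 * n) (show _ ≤ 2 * fib (2 * v + 3) by omega) _ _ b1
  rw [show 2 * v + 2 + 9 + (4 * v + 4 + 2 * w) = 6 * v + 15 + 2 * w by ring] at h
  obtain ⟨k, hk⟩ : ∃ k, 6 * v + 15 + 2 * w = k + 2 := ⟨6 * v + 13 + 2 * w, by ring⟩
  have c := cas (3 * v + 7 + w)
  rw [show 2 * (3 * v + 7 + w) + 1 = k + 2 by omega, show 2 * (3 * v + 7 + w) + 3 = k + 4 by omega,
    show 2 * (3 * v + 7 + w) + 2 = k + 3 by omega] at c
  have c1 : fib (2 * k + 5) = fib (k + 3) ^ 2 + fib (k + 2) ^ 2 := fib_two_mul_add_one (k + 2)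
  have c2 : fib (2 * k + 7) = fib (k + 4) ^ 2 + fib (k + 3) ^ 2 := fib_two_mul_add_one (k + 3)
  have c3 : fib (2 * k + 6) = fib (2 * k + 4) + fib (2 * k + 5) := fib_add_two
  rw [hk] at h ⊢
  have b2 : 2 * n * L (k + 2) + (n ^ 2 + 2) < fib (2 * k + 4) := by
    have d1 := fib_add k (k + 3)
    have d2 := fib_add (2 * v + 2) 5
    have d3 := fib_mono (show 2 * v + 2 + 5 + 1 ≤ k + 1 by omega)
    have d4 := fib_mono (show 4 * v + 4 + 2 * w + 1 ≤ k + 4 by omega)
    have d5 := fib_mono (show k + 2 ≤ k + 4 by omega)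
    have d6 : fib (5 + 1) = 8 := by decide
    rw [show k + (k + 3) + 1 = 2 * k + 4 by ring] at d1
    have d7 : 8 * fib (2 * v + 3) ≤ fib (k + 1) := by
      rw [d6, show 2 * v + 2 + 1 = 2 * v + 3 by ring] at d2; omega
    have d8 : 8 * fib (2 * v + 3) * fib (k + 4) ≤ fib (k + 1) * fib (k + 3 + 1) :=
      Nat.mul_le_mul_right _ d7
    have d9 : 2 * n * L (k + 2) ≤ 2 * fib (2 * v + 3) * (2 * fib (k + 4)) :=
      Nat.mul_le_mul (by omega) (by simp only [L, add_assoc]; norm_num; omega)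
    nlinarith
  rw [show (L (k + 2) + n) ^ 2 = fib (2 * k + 5 + 2) + (fib (2 * k + 3 + 2) +
      (2 * n * L (k + 2) + (n ^ 2 + 2))) by
    show _ = fib (2 * k + 7) + (fib (2 * k + 5) + _)
    rw [c1, c2, show L (k + 2) = fib (k + 2) + fib (k + 4) from rfl]; nlinarith,
    s_fib (show _ < fib (2 * k + 6) by show fib (2 * k + 5) + _ < _; omega), s_fib b2, h, add_assoc,
    show (1 + 1 : ZMod 2) = 0 from rfl, add_zero]

def P (u : ℕ → ZMod 2) (N k : ℕ) : Prop :=
  ∀ i j, i + k < N → j + k < N → (∀ t < k, u (i + t) = u (j + t)) → u (i + k) = u (j + k)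

lemma P.succ {u : ℕ → ZMod 2} {N k : ℕ} (h : P u N k) : P u N (k + 1) := fun i j a b c => by
  have := h (i + 1) (j + 1) (by omega) (by omega) fun t ht => by
    have := c (t + 1) (by omega)
    rwa [show i + 1 + t = i + (t + 1) by ring, show j + 1 + t = j + (t + 1) by ring]
  rwa [show i + (k + 1) = i + 1 + k by ring, show j + (k + 1) = j + 1 + k by ring]

lemma M_le {u : ℕ → ZMod 2} (hu : u 1 ≠ u 0) {N k : ℕ} (hN : 3 ≤ N) (hk : 0 < k) :
    M u N ≤ k ↔ P u N k := by
  classical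
  have e : ∀ k, (∃ f : (Fin k → ZMod 2) → ZMod 2, ∀ i, i + k < N →
      u (i + k) = f fun j => u (i + j)) ↔ P u N k := fun k => by
    refine ⟨fun ⟨f, h⟩ i j a b c => by rw [h i a, h j b, funext fun t : Fin k => c t t.2],
      fun h => ⟨fun w => if e : ∃ i, i + k < N ∧ w = fun j : Fin k => u (i + j) then
        u (e.choose + k) else 0, fun i a => ?_⟩⟩
    have e : ∃ i', i' + k < N ∧ (fun j : Fin k => u (i + j)) = fun j : Fin k => u (i' + j) :=
      ⟨i, a, rfl⟩
    beta_reduce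
    rw [dif_pos e]
    exact h _ _ a e.choose_spec.1 fun t ht => congrFun e.choose_spec.2 ⟨t, ht⟩
  rw [M, if_neg fun h => hu (h 1 (by omega))]
  simp only [e]
  refine ⟨fun h => ?_, fun h => Nat.sInf_le ⟨hk, h⟩⟩
  have : P u N (sInf {k | 0 < k ∧ P u N k}) := (Nat.sInf_mem (s := {k | 0 < k ∧ P u N k})
    ⟨N, by omega, fun i j a => by omega⟩).2
  clear hk
  induction k, h using Nat.le_induction with
  | base => exact this
  | succ k _ ih => exact ih.succ

theorem result : ¬ ∀ Q : Polynomial ℤ, Q.Monic → 2 ≤ Q.natDegree → (∀ n : ℕ, 0 ≤ Q.eval (n : ℤ)) →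
    ∃ c C : ℝ, 0 < c ∧ 0 < C ∧ ∀ᶠ N : ℕ in atTop,
      c * (N : ℝ) ^ (1 / (2 * Q.natDegree : ℝ)) ≤ M (fun n => s (Q.eval (n : ℤ)).toNat) N ∧
      (M (fun n => s (Q.eval (n : ℤ)).toNat) N : ℝ) ≤ C * (N : ℝ) ^ (1 / (2 * Q.natDegree : ℝ)) := by
  intro h
  obtain ⟨c, C, c0, C0, h⟩ := h (Polynomial.X ^ 2) (Polynomial.monic_X_pow 2) (by simp)
    fun n => by simp
  have e : (fun n : ℕ => s ((Polynomial.X ^ 2 : Polynomial ℤ).eval (n : ℤ)).toNat) =
      fun n => s (n ^ 2) := funext fun n => by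
    rw [Polynomial.eval_pow, Polynomial.eval_X, ← Nat.cast_pow, Int.toNat_natCast]
  rw [e, Polynomial.natDegree_X_pow] at h
  set u : ℕ → ZMod 2 := fun n => s (n ^ 2) with hu
  have u1 : u 1 ≠ u 0 := by
    have : s 1 = s 0 + 1 := s_fib (k := 0) (r := 0) (by simp)
    simp [hu, this]
  have q : ∀ N : ℕ, ((N : ℝ) ^ (1 / (2 * (2 : ℕ) : ℝ))) ^ 4 = N := fun N => by
    rw [← Real.rpow_natCast, ← Real.rpow_mul (Nat.cast_nonneg N)]; norm_num
  obtain ⟨K, hK⟩ := eventually_atTop.1 h
  obtain ⟨D, hD⟩ := exists_nat_ge (C ^ 4)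
  have up : ∀ N, K ≤ N → M u N ^ 4 ≤ D * N := fun N hN => by
    have := pow_le_pow_left₀ (Nat.cast_nonneg _) (hK N hN).2 4
    rw [mul_pow, q] at this
    exact_mod_cast this.trans (mul_le_mul_of_nonneg_right hD (Nat.cast_nonneg N))
  obtain ⟨v, hv⟩ : ∃ v, v = K + 10000 * D + 3 := ⟨_, rfl⟩
  have m : ∀ n < fib (2 * v + 3), u (L (6 * v + 15) + n) = u (L (6 * v + 17) + n) := fun n hn =>
    (sq_eq v 0 n hn).trans (sq_eq v 1 n hn).symm
  have U1 := le_fib_self (show 5 ≤ 2 * v + 3 by omega)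
  have j1 : L (6 * v + 15) < L (6 * v + 17) := Nat.add_lt_add
    (fib_lt_fib (by omega) |>.2 (by omega)) (fib_lt_fib (by omega) |>.2 (by omega))
  have j2 : L (6 * v + 17) ≤ 10000 * fib (2 * v + 3) ^ 3 := by
    have a : ∀ m n, fib (m + n + 1) ≤ 2 * (fib (m + 1) * fib (n + 1)) := fun m n => by
      have := Nat.mul_le_mul (fib_le_fib_succ (n := m)) (fib_le_fib_succ (n := n))
      rw [fib_add]; omega
    have a1 : fib (4 * v + 5) ≤ 2 * (fib (2 * v + 3) * fib (2 * v + 3)) := by
      convert a (2 * v + 2) (2 * v + 2) using 2; ring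
    have a2 : fib (6 * v + 7) ≤ 2 * (fib (4 * v + 5) * fib (2 * v + 3)) := by
      convert a (4 * v + 4) (2 * v + 2) using 2; ring
    have a3 : fib (6 * v + 19) ≤ 2 * (fib (6 * v + 7) * 233) := a (6 * v + 6) 12
    have a4 := fib_mono (show 6 * v + 17 ≤ 6 * v + 19 by omega)
    have a5 := Nat.mul_le_mul_right (fib (2 * v + 3)) a1
    show fib (6 * v + 17) + fib (6 * v + 19) ≤ _
    nlinarith
  generalize L (6 * v + 15) = i at *
  generalize L (6 * v + 17) = j at *
  generalize fib (2 * v + 3) = U at *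
  by_cases ex : ∃ t, u (i + t) ≠ u (j + t)
  · classical
    have t1 := Nat.find_spec ex
    have t2 := fun t => Nat.find_min ex (m := t)
    have t3 : U ≤ Nat.find ex := not_lt.1 fun h => t1 (m _ h)
    generalize Nat.find ex = t at *
    have : t < M u (j + t + 1) := not_le.1 fun h => t1 ((M_le u1 (by omega) (by omega)).1 h i j
      (by omega) (by omega) fun x hx => not_not.1 (t2 x hx))
    have a := (Nat.pow_le_pow_left this 4).trans (up _ (by omega))
    have b : U ^ 3 ≤ (t + 1) ^ 3 := Nat.pow_le_pow_left (by omega) 3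
    have b2 : t + 1 ≤ (t + 1) ^ 3 := Nat.le_self_pow (by omega) _
    have : D * (j + t + 1) ≤ D * (10001 * (t + 1) ^ 3) := Nat.mul_le_mul_left _ (by omega)
    have : (10001 * D + 1) * (t + 1) ^ 3 ≤ (t + 1) * (t + 1) ^ 3 :=
      Nat.mul_le_mul_right _ (by omega)
    simp only [Nat.succ_eq_add_one] at a
    nlinarith
  · push Not at ex
    have bd : ∀ N, 3 ≤ N → M u N ≤ j := fun N hN => (M_le u1 hN (by omega)).2 fun a b _ _ h => by
      have e1 := ex a
      have e2 := ex b
      rw [add_comm i, add_comm j] at e1 e2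
      rw [← e1, ← e2, h i j1]
    obtain ⟨N, hN⟩ := exists_nat_gt ((j / c) ^ 4)
    have h1 := (hK (N + K + 3) (by omega)).1
    have h2 : (M u (N + K + 3) : ℝ) ≤ j := by exact_mod_cast bd _ (by omega)
    have h3 := pow_le_pow_left₀ (by positivity) ((le_div_iff₀' c0).2 (h1.trans h2)) 4
    rw [q] at h3
    push_cast at h3
    linarith [Nat.cast_nonneg (α := ℝ) K]

end Pool.Agent.Results.MP_d0186b_co.No
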